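import Pool.Agent.MP436edf.Final

set_option autoImplicit false

/-!
A balanced digraph of order at least 3 with Laplacian spread one is regular: its order is even and
at least 4, and the digraph or its complement is (n-2)/2-regular.
-/

namespace Pool.Agent.Results.MP_436edf_co.SpreadOne

open Pool.Agent.MP436edf

theorem result : ∀ (n : ℕ), 3 ≤ n → ∀ G : Digraph (Fin n), Loopless G → Balanced G →
    spread G = 1 →
      (∃ k, Regular G k) ∧ 4 ≤ n ∧ Even n ∧
        (Regular G ((n - 2) / 2) ∨ Regular (complement G) ((n - 2) / 2)) := by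
  intro n hn G hl hb hs
  rcases main hn G hl hb hs with h | h
  · have h0 := h ⟨0, by omega⟩
    refine ⟨⟨(n - 2) / 2, fun i => ?_⟩, by omega, ?_, Or.inl fun i => ?_⟩
    · have h1 := h i
      rw [hb i]
      omega
    · rw [Nat.even_iff]; omega
    · have h1 := h i
      rw [hb i]
      omega
  · have h0 := h ⟨0, by omega⟩
    refine ⟨⟨n / 2, fun i => ?_⟩, by omega, ?_, Or.inr fun i => ?_⟩
    · have h1 := h i
      rw [hb i]
      omega
    · rw [Nat.even_iff]; omega
    · have h1 := h i
      have h2 := outDeg_compl G hl i
      have h3 := inDeg_compl G hl i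
      rw [hb i] at h3
      omega

end Pool.Agent.Results.MP_436edf_co.SpreadOne
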